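import Pool.Agent.Q139.TC.Stmts

namespace Pool.Agent.Q139.TC.TA1

open Pool.Agent.Q139.TC

theorem main (h : TPt) : TA1 := by
  intro k
  have hsum : (fun i : Fin 3 => if i = k then (-2 : ℝ) else 1) 0 +
      (fun i : Fin 3 => if i = k then (-2 : ℝ) else 1) 1 +
      (fun i : Fin 3 => if i = k then (-2 : ℝ) else 1) 2 = 0 := by
    have h3 : ∀ k : Fin 3, k = 0 ∨ k = 1 ∨ k = 2 := by decide
    have e1 : (1 : Fin 3) ≠ 0 := by decide
    have e2 : (2 : Fin 3) ≠ 0 := by decide
    have e3 : (2 : Fin 3) ≠ 1 := by decide
    rcases h3 k with rfl | rfl | rfl
    · simp only [e1, e2, if_true, if_false]; norm_num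
    · simp only [e1.symm, e3, if_true, if_false]; norm_num
    · simp only [e2.symm, e3.symm, if_true, if_false]; norm_num
  obtain ⟨c, hx, hl⟩ := h (fun i => if i = k then (-1 : ℝ) else 0)
    (fun i => if i = k then (-2 : ℝ) else 1) hsum
  refine ⟨c, ⟨?_, ?_⟩, ?_⟩
  · rw [hx]; norm_num
  · intro i
    by_cases hik : i = k
    · left; rw [hx]; simp [hik]
    · right; rw [hl]; simp [hik]
  · rw [starConvex_iff_forall_pos]
    · intro p hp a b ha hb hab
      refine ⟨?_, ?_⟩
      · have h1 := hp.1
        rw [map_add, map_smul, map_smul, hx]
        simp only [if_true, smul_eq_mul]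
        have := mul_neg_of_pos_of_neg hb h1
        linarith
      · intro i
        by_cases hik : i = k
        · left
          subst hik
          have h1 := hp.1
          rw [map_add, map_smul, map_smul, hx]
          simp only [if_true, smul_eq_mul]
          have := mul_neg_of_pos_of_neg hb h1
          exact ne_of_lt (by linarith)
        · rcases hp.2 i with h1 | h1
          · left
            rw [map_add, map_smul, map_smul, hx]
            simp only [hik, if_false, smul_eq_mul, mul_zero, zero_add]
            exact mul_ne_zero hb.ne' h1
          · right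
            rw [map_add, map_smul, map_smul, hl]
            simp only [hik, if_false, smul_eq_mul, mul_one]
            have := mul_pos hb h1
            linarith
    · refine ⟨?_, ?_⟩
      · rw [hx]; norm_num
      · intro i
        by_cases hik : i = k
        · left; rw [hx]; simp [hik]
        · right; rw [hl]; simp [hik]

end Pool.Agent.Q139.TC.TA1
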