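import Pool.Agent.Q139.TC.Stmts

namespace Pool.Agent.Q139.TC.TA2

open Pool.Agent.Q139.TC

theorem pt (x l : Fin 3 → ℝ) (h : l 0 + l 1 + l 2 = 0) :
    ∃ p : E, (∀ i, xx i p = x i) ∧ ∀ i, ell i p = l i := by
  refine ⟨!₂[x 0, x 1, x 2, l 0, l 1], ?_, ?_⟩
  · intro i
    fin_cases i <;> simp [xx]
  · intro i
    fin_cases i
    · simp [ell]
    · simp [ell]
    · simp [ell]
      linarith

theorem main : TA2 := by
  intro j k hjk
  have hsum : (fun i : Fin 3 => if i = j then (-1 : ℝ) else if i = k then 0 else 1) 0 +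
      (fun i : Fin 3 => if i = j then (-1 : ℝ) else if i = k then 0 else 1) 1 +
      (fun i : Fin 3 => if i = j then (-1 : ℝ) else if i = k then 0 else 1) 2 = 0 := by
    fin_cases j <;> fin_cases k <;> simp at hjk ⊢
  obtain ⟨c, hx, hl⟩ := pt (fun i => if i = j ∨ i = k then -1 else 0)
    (fun i : Fin 3 => if i = j then (-1 : ℝ) else if i = k then 0 else 1) hsum
  have hcj : xx j c < 0 := by rw [hx]; simp
  have hck : xx k c < 0 := by rw [hx]; simp
  have hall : ∀ i, xx i c ≠ 0 ∨ 0 < ell i c := by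
    intro i
    by_cases h : i = j ∨ i = k
    · left; rw [hx]; simp [h]
    · right; rw [hl]
      push Not at h
      simp [h.1, h.2]
  refine ⟨c, ⟨⟨hcj, hall⟩, ⟨hck, hall⟩⟩, ?_⟩
  rintro p ⟨⟨hpj, hpall⟩, ⟨hpk, -⟩⟩ a b ha hb hab
  have hneg : ∀ i, xx i c < 0 → xx i p < 0 → xx i (a • c + b • p) < 0 := by
    intro i h1 h2
    rw [map_add, map_smul, map_smul, smul_eq_mul, smul_eq_mul]
    rcases eq_or_lt_of_le ha with h | h
    · have hb1 : b = 1 := by linarith
      rw [← h, hb1]; linarith
    · nlinarith [mul_pos_of_neg_of_neg h1 h2, mul_nonneg hb (neg_nonneg.mpr h2.le), mul_pos h (neg_pos.mpr h1)]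
  have hres : ∀ i, xx i (a • c + b • p) ≠ 0 ∨ 0 < ell i (a • c + b • p) := by
    intro i
    by_cases h : i = j ∨ i = k
    · left
      rcases h with h | h
      · subst h; exact (hneg i hcj hpj).ne
      · subst h; exact (hneg i hck hpk).ne
    · have hxc : xx i c = 0 := by rw [hx]; simp [h]
      have hlc : ell i c = 1 := by
        rw [hl]
        push Not at h
        simp [h.1, h.2]
      rw [map_add, map_smul, map_smul, map_add, map_smul, map_smul, hxc, hlc]
      simp only [smul_eq_mul, mul_zero, zero_add, mul_one]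
      rcases eq_or_lt_of_le hb with h0 | h0
      · right
        rw [← h0]
        have : a = 1 := by linarith
        rw [this]; norm_num
      · rcases hpall i with h1 | h1
        · left; exact mul_ne_zero h0.ne' h1
        · right
          have := mul_pos h0 h1
          linarith
  exact ⟨⟨hneg j hcj hpj, hres⟩, ⟨hneg k hck hpk, hres⟩⟩

end Pool.Agent.Q139.TC.TA2
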