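import Mathlib
import Pool.Agent.Helper562.VK

/-!
Blueprint TC (problem MP_a4ef96_gt): a simply connected two-convex open set in `ℝ⁵` with a planar
section which is a punctured plane.  Coordinates `p 0, p 1, p 2` (the `x`'s) and `(p 3, p 4)`.
-/

namespace Pool.Agent.Q139.TC

abbrev E := EuclideanSpace ℝ (Fin 5)

/-- the three coordinates `x₀, x₁, x₂` -/
noncomputable def xx (i : Fin 3) : E →L[ℝ] ℝ := EuclideanSpace.proj (i.castSucc.castSucc)

/-- three linear forms in `(p 3, p 4)` with sum `0` -/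
noncomputable def ell : Fin 3 → (E →L[ℝ] ℝ)
  | 0 => EuclideanSpace.proj 3
  | 1 => EuclideanSpace.proj 4
  | 2 => -(EuclideanSpace.proj 3 + EuclideanSpace.proj 4)

/-- the set: complement of the three walls `{x_i = 0, ell_i ≤ 0}` and of the octant
`{p 3 = p 4 = 0, x ≥ 0}` -/
def Om : Set E := {p | (∀ i, xx i p ≠ 0 ∨ 0 < ell i p) ∧ ¬ ((∀ i, ell i p = 0) ∧ ∀ i, 0 ≤ xx i p)}

/-- two-convexity: if three of the four faces of a tetrahedron lie in `Ω` then so does the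
tetrahedron.  The face opposite to `v j` is the convex hull of the other three vertices. -/
def TwoConvex {V : Type} [AddCommGroup V] [Module ℝ V] (Ω : Set V) : Prop :=
  ∀ v : Fin 4 → V, AffineIndependent ℝ v → ∀ j₀ : Fin 4,
    (∀ j, j ≠ j₀ → convexHull ℝ (v '' {j}ᶜ) ⊆ Ω) → convexHull ℝ (Set.range v) ⊆ Ω

/-! ### basics -/

/-- use `EuclideanSpace` literal `!₂[x 0, x 1, x 2, l 0, l 1]` -/
def TPt : Prop := ∀ x l : Fin 3 → ℝ, l 0 + l 1 + l 2 = 0 →
  ∃ p : E, (∀ i, xx i p = x i) ∧ ∀ i, ell i p = l i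

def TSum : Prop := ∀ p : E, ell 0 p + ell 1 p + ell 2 p = 0

/-! ### two-convexity -/

/-- Proof: by `Order.exists_between_finsets` there is `m` with `g a - m * f a > 0` for all `a`
(`g a / f a > g b / f b` for `f a > 0 > f b`, from hedge at the zero of `f` on the edge). -/
def TEdge : Prop := ∀ f g lam : Fin 4 → ℝ, (∀ a, 0 ≤ lam a) → ∑ a, lam a = 1 →
  ∑ a, lam a * f a = 0 →
  (∀ a b : Fin 4, ∀ t : ℝ, 0 ≤ t → t ≤ 1 → (1 - t) * f a + t * f b = 0 →
    0 < (1 - t) * g a + t * g b) → 0 < ∑ a, lam a * g a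

/-- dep TEdge. every edge `[v a, v b]` lies in a face opposite to some `j ∉ {a, b, j₀}`. -/
def TWall : Prop := ∀ (f g : E →L[ℝ] ℝ) (v : Fin 4 → E) (j₀ : Fin 4),
  (∀ j, j ≠ j₀ → ∀ p ∈ convexHull ℝ (v '' {j}ᶜ), f p ≠ 0 ∨ 0 < g p) →
  ∀ p ∈ convexHull ℝ (Set.range v), f p ≠ 0 ∨ 0 < g p

/-- linear algebra: 3 equations in 4 unknowns; replace `δ` by `-δ` for the sign -/
def TDir : Prop := ∀ (a b : Fin 4 → ℝ) (j₀ : Fin 4), ∃ δ : Fin 4 → ℝ, δ ≠ 0 ∧
  ∑ k, δ k = 0 ∧ ∑ k, δ k * a k = 0 ∧ ∑ k, δ k * b k = 0 ∧ 0 ≤ δ j₀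

/-- `t = min` of `lam k / (-δ k)` over the `k` with `δ k < 0` (there are such, none is `j₀`) -/
def TExit : Prop := ∀ (lam δ : Fin 4 → ℝ) (j₀ : Fin 4), (∀ k, 0 ≤ lam k) → δ ≠ 0 →
  ∑ k, δ k = 0 → 0 ≤ δ j₀ →
  ∃ t : ℝ, 0 ≤ t ∧ (∀ k, 0 ≤ lam k + t * δ k) ∧ ∃ j, j ≠ j₀ ∧ lam j + t * δ j = 0

/-- deps TWall, TDir, TExit. Let p = ∑ lam k • v k in the tetrahedron. By TWall for
(xx i, ell i) the whole tetrahedron avoids the walls. If all ell i p = 0 and xx i p ≥ 0: take δ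
from TDir with a k = ell 0 (v k), b k = ell 1 (v k), t from TExit, q = ∑ (lam k + t δ k) • v k.
q lies in the face opposite j, ell i q = 0, so some xx i q < 0 (as q ∈ Om) while xx i p ≥ 0, so on
the segment [p, q] there is a point with xx i = 0 and ell i = 0: in a wall. -/
def TTwo : Prop := TwoConvex Om

/-! ### simple connectivity -/

/-- from `Pool.Agent.Helper562.VK.simplyConnected_of_union` applied in the subspace `U ∪ V` -/
def TUnion : Prop := ∀ (U V : Set E), IsOpen U → IsOpen V → IsSimplyConnected U →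
  IsSimplyConnected V → IsPathConnected (U ∩ V) → IsSimplyConnected (U ∪ V)

/-- a star-shaped set is simply connected (`StarConvex.contractibleSpace`) -/
def TStar : Prop := ∀ (c : E) (U : Set E), c ∈ U → StarConvex ℝ c U → IsSimplyConnected U

def AA (k : Fin 3) : Set E := {p | xx k p < 0 ∧ ∀ i, xx i p ≠ 0 ∨ 0 < ell i p}

def NN (k : Fin 3) : Set E := {p | 0 < ell k p ∧ ∀ i, 0 < xx i p ∨ 0 < xx i p + ell i p}

def TOpen : Prop := IsOpen Om ∧ (∀ k, IsOpen (AA k)) ∧ ∀ k, IsOpen (NN k)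

/-- centre: xx k = -1, ell k = -2, for the others xx i = 0, ell i = 1 (use TPt).
Star-convexity: for i ≠ k: (xx i p ≠ 0 ∨ 0 < ell i p) is stable under a•c + b•p, and for i = k
xx k stays negative. -/
def TA1 : Prop := ∀ k, ∃ c ∈ AA k, StarConvex ℝ c (AA k)

/-- centre: xx j = xx k = -1, third: xx i = 0, ell i = 1 -/
def TA2 : Prop := ∀ j k, j ≠ k → ∃ c ∈ AA j ∩ AA k, StarConvex ℝ c (AA j ∩ AA k)

/-- a point with all xx negative -/
def TA3 : Prop := ∃ c, c ∈ AA 0 ∩ AA 1 ∩ AA 2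

/-- deps TUnion, TStar, TOpen, TA1, TA2, TA3 -/
def TAU : Prop := IsSimplyConnected (AA 0 ∪ AA 1 ∪ AA 2)

/-- centre: xx i = 10 for all i, ell k = 1, another = 1, the third = -2. The set is the
intersection of {ell k > 0} and the sets {xx i > 0} ∪ {xx i + ell i > 0}; for the centre c both
xx i c > 0 and xx i c + ell i c > 0. -/
def TN1 : Prop := ∀ k, ∃ c ∈ NN k, StarConvex ℝ c (NN k)

/-- centre: xx i = 10, ell j = ell k = 1, third = -2 -/
def TN2 : Prop := ∀ j k, j ≠ k → ∃ c ∈ NN j ∩ NN k, StarConvex ℝ c (NN j ∩ NN k)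

/-- NN k ∩ AA i: centre: xx i = -1, ell i = 3 and ell k = 1 if k ≠ i; other xx = 10.
(points of NN k ∩ AA i: ell k > 0, xx i < 0, xx i + ell i > 0, others as in TN1) -/
def TM1 : Prop := ∀ k i, ∃ c ∈ NN k ∩ AA i, StarConvex ℝ c (NN k ∩ AA i)

/-- xx k = xx i = -1, ell k = ell i = 2, third: xx = 10, ell = -4 -/
def TM2 : Prop := ∀ k i, k ≠ i → (NN k ∩ AA k ∩ AA i).Nonempty

/-- xx j = 10, xx k = -1, ell j = ell k = 2, third: xx = 10, ell = -4 -/
def TM3 : Prop := ∀ j k, j ≠ k → (NN j ∩ NN k ∩ AA k).Nonempty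

/-- deps TM1, TM2, TStar (`IsPathConnected.union`) -/
def TM4 : Prop := ∀ k, IsPathConnected ((AA 0 ∪ AA 1 ∪ AA 2) ∩ NN k)

def TCov : Prop := Om = AA 0 ∪ AA 1 ∪ AA 2 ∪ NN 0 ∪ NN 1 ∪ NN 2

/-- deps TUnion, TStar, TOpen, TAU, TN1, TN2, TM3, TM4, TCov: add NN 0, NN 1, NN 2 one by one -/
def TSC : Prop := IsSimplyConnected Om

/-! ### the plane -/

/-- if ℂ \ {0} were simply connected, `exists_continuousOn_eqOn_exp_comp` would give a continuous
logarithm f; f (exp (θ I)) - θ I is continuous on ℝ with values in 2 π i ℤ, so constant;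
compare θ = 0 and 2 π. -/
def TPunct : Prop := ¬ IsSimplyConnected ({0}ᶜ : Set ℂ)

/-- the plane x₀ = x₁ = x₂ = 1 -/
noncomputable def pl (z : ℂ) : E := !₂[1, 1, 1, z.re, z.im]

/-- the plane as an affine subspace, `AffineSubspace.mk' (pl 0) (ker of (xx 0, xx 1, xx 2))` or the
range of an affine map -/
def TPlane : Prop := ∃ P : AffineSubspace ℝ E, Module.finrank ℝ P.direction = 2 ∧
  (P : Set E) = Set.range pl

/-- `pl` is an embedding and `pl z ∈ Om ↔ z ≠ 0` -/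
def TPl : Prop := Topology.IsEmbedding pl ∧ ∀ z, pl z ∈ Om ↔ z ≠ 0

/-- deps TPunct, TPlane, TPl, TOpen, TTwo, TSC: the final theorem
(Om ∩ P = pl '' {0}ᶜ is path connected, so equal to each of its components) -/
def TFinal : Prop := ∃ Ω : Set (EuclideanSpace ℝ (Fin 5)), IsOpen Ω ∧ IsSimplyConnected Ω ∧
  TwoConvex Ω ∧ ∃ P : AffineSubspace ℝ (EuclideanSpace ℝ (Fin 5)),
    Module.finrank ℝ P.direction = 2 ∧ ∃ p ∈ Ω ∩ P,
      ¬ IsSimplyConnected (connectedComponentIn (Ω ∩ P) p)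

end Pool.Agent.Q139.TC
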