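import Mathlib
import Pool.Agent.Q139.TC.Stmts

set_option autoImplicit false

namespace Pool.Agent.Q139.TC.TA3

/-- A point with all `xx` negative lies in all three sets. -/
theorem main : Pool.Agent.Q139.TC.TA3 := by
  have h : ∀ i, xx i (!₂[(-1 : ℝ), -1, -1, 0, 0] : E) = -1 := by
    intro i
    fin_cases i <;> rfl
  have hA : ∀ k, (!₂[(-1 : ℝ), -1, -1, 0, 0] : E) ∈ AA k := by
    intro k
    refine ⟨?_, fun i => Or.inl ?_⟩
    · rw [h k]
      norm_num
    · rw [h i]
      norm_num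
  exact ⟨_, ⟨hA 0, hA 1⟩, hA 2⟩

end Pool.Agent.Q139.TC.TA3

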