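import Pool.Agent.Q139.TC.Stmts

namespace Pool.Agent.Q139.TC.TAU

theorem main (hU : TUnion) (hS : TStar) (hO : TOpen) (h1 : TA1) (h2 : TA2) (h3 : TA3) : TAU := by
  have hsc : ∀ k, IsSimplyConnected (AA k) := by
    intro k
    obtain ⟨c, hc, hs⟩ := h1 k
    exact hS c _ hc hs
  have hpc : ∀ j k, j ≠ k → IsPathConnected (AA j ∩ AA k) := by
    intro j k hjk
    obtain ⟨c, hc, hs⟩ := h2 j k hjk
    exact hs.isPathConnected hc
  have ho := hO.2.1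
  have h01 : IsSimplyConnected (AA 0 ∪ AA 1) :=
    hU (AA 0) (AA 1) (ho 0) (ho 1) (hsc 0) (hsc 1) (hpc 0 1 (by decide))
  refine hU (AA 0 ∪ AA 1) (AA 2) ((ho 0).union (ho 1)) (ho 2) h01 (hsc 2) ?_
  rw [Set.union_inter_distrib_right]
  refine (hpc 0 2 (by decide)).union (hpc 1 2 (by decide)) ?_
  obtain ⟨c, hc⟩ := h3
  exact ⟨c, ⟨hc.1.1, hc.2⟩, ⟨hc.1.2, hc.2⟩⟩

end Pool.Agent.Q139.TC.TAU
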