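import Pool.Agent.Q139.TC.Stmts

set_option autoImplicit false

namespace Pool.Agent.Q139.TC.TCov

open Pool.Agent.Q139.TC

lemma sum0 (p : E) : ell 0 p + ell 1 p + ell 2 p = 0 := by
  simp only [ell, neg_apply, ContinuousLinearMap.neg_apply, ContinuousLinearMap.add_apply]
  ring

lemma nn {k : Fin 3} {p : E} (h : p ∈ NN k) : p ∈ Om := by
  obtain ⟨h1, h2⟩ := h
  refine ⟨fun i => ?_, fun h3 => ?_⟩
  · rcases h2 i with h | h
    · exact Or.inl h.ne'
    · by_cases h0 : xx i p = 0
      · right; rw [h0] at h; linarith
      · exact Or.inl h0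
  · rw [h3.1 k] at h1
    exact lt_irrefl _ h1

lemma aa {k : Fin 3} {p : E} (h : p ∈ AA k) : p ∈ Om :=
  ⟨h.2, fun h3 => absurd (h3.2 k) (not_le.mpr h.1)⟩

theorem main : Pool.Agent.Q139.TC.TCov := by
  apply Set.eq_of_subset_of_subset
  · rintro p ⟨h1, h2⟩
    simp only [Set.mem_union]
    by_cases ha : ∃ k, xx k p < 0
    · obtain ⟨k, hk⟩ := ha
      have hA : p ∈ AA k := ⟨hk, h1⟩
      fin_cases k
      · exact Or.inl (Or.inl (Or.inl (Or.inl (Or.inl hA))))
      · exact Or.inl (Or.inl (Or.inl (Or.inl (Or.inr hA))))
      · exact Or.inl (Or.inl (Or.inl (Or.inr hA)))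
    · push Not at ha
      have hk : ∃ k, 0 < ell k p := by
        by_contra hne
        push Not at hne
        apply h2
        refine ⟨fun i => ?_, ha⟩
        have h0 := hne 0
        have h1' := hne 1
        have h2' := hne 2
        have hs := sum0 p
        fin_cases i
        · show ell 0 p = 0; linarith
        · show ell 1 p = 0; linarith
        · show ell 2 p = 0; linarith
      obtain ⟨k, hk⟩ := hk
      have hN : p ∈ NN k := by
        refine ⟨hk, fun i => ?_⟩
        rcases (ha i).eq_or_lt with h | h
        · right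
          rcases h1 i with h3 | h3
          · exact absurd h.symm h3
          · rw [← h]; linarith
        · exact Or.inl h
      fin_cases k
      · exact Or.inl (Or.inl (Or.inr hN))
      · exact Or.inl (Or.inr hN)
      · exact Or.inr hN
  · intro p hp
    simp only [Set.mem_union] at hp
    rcases hp with ((((h | h) | h) | h) | h) | h
    · exact aa h
    · exact aa h
    · exact aa h
    · exact nn h
    · exact nn h
    · exact nn h

end Pool.Agent.Q139.TC.TCov
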