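import Pool.Agent.Q139.TC.Stmts

set_option autoImplicit false

namespace Pool.Agent.Q139.TC.TDir

open Pool.Agent.Q139.TC

theorem main : Pool.Agent.Q139.TC.TDir := by
  intro a b j₀
  set f : (Fin 4 → ℝ) →ₗ[ℝ] (Fin 3 → ℝ) :=
    LinearMap.pi ![∑ k, LinearMap.proj k, ∑ k, (a k) • LinearMap.proj k,
      ∑ k, (b k) • LinearMap.proj k] with hf
  have hlt : Module.finrank ℝ (Fin 3 → ℝ) < Module.finrank ℝ (Fin 4 → ℝ) := by
    simp
  have hker : LinearMap.ker f ≠ ⊥ := LinearMap.ker_ne_bot_of_finrank_lt hlt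
  obtain ⟨δ, hδ, hne⟩ := Submodule.exists_mem_ne_zero_of_ne_bot hker
  rw [LinearMap.mem_ker] at hδ
  have e0 : ∑ k, δ k = 0 := by
    have := congrFun hδ 0
    simpa [hf, LinearMap.sum_apply] using this
  have e1 : ∑ k, δ k * a k = 0 := by
    have := congrFun hδ 1
    have h2 : ∑ k, a k * δ k = 0 := by
      simpa [hf, LinearMap.sum_apply] using this
    rw [← h2]
    exact Finset.sum_congr rfl fun k _ => mul_comm _ _
  have e2 : ∑ k, δ k * b k = 0 := by
    have := congrFun hδ 2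
    have h2 : ∑ k, b k * δ k = 0 := by
      simpa [hf, LinearMap.sum_apply] using this
    rw [← h2]
    exact Finset.sum_congr rfl fun k _ => mul_comm _ _
  rcases le_total 0 (δ j₀) with h | h
  · exact ⟨δ, hne, e0, e1, e2, h⟩
  · refine ⟨-δ, neg_ne_zero.2 hne, ?_, ?_, ?_, ?_⟩
    · simp [e0]
    · simp [e1]
    · simp [e2]
    · simpa using h

end Pool.Agent.Q139.TC.TDir
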