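import Mathlib
import Pool.Agent.Q139.TC.Stmts

set_option autoImplicit false

namespace Pool.Agent.Q139.TC.TEdge

open Finset

theorem main : TEdge := by
  intro f g lam hl hs hf he
  have edge : ∀ b a, f b < 0 → 0 < f a → g b / f b < g a / f a := by
    intro b a hb ha
    have hd : 0 < f a - f b := by linarith
    have h := he a b (f a / (f a - f b)) (by positivity)
      ((div_le_one hd).2 (by linarith)) (by field_simp; ring)
    have e : (1 - f a / (f a - f b)) * g a + f a / (f a - f b) * g b =
        (f a * g b - f b * g a) / (f a - f b) := by field_simp; ring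
    rw [e, div_pos_iff_of_pos_right hd] at h
    rw [div_lt_iff_of_neg hb, div_mul_eq_mul_div, div_lt_iff₀ ha]
    linarith
  obtain ⟨m, hm1, hm2⟩ := Order.exists_between_finsets
    ((univ.filter (fun b => f b < 0)).image (fun b => g b / f b))
    ((univ.filter (fun a => 0 < f a)).image (fun a => g a / f a)) (by
      intro x hx y hy
      simp only [mem_image, mem_filter, mem_univ, true_and] at hx hy
      obtain ⟨b, hb, rfl⟩ := hx
      obtain ⟨a, ha, rfl⟩ := hy
      exact edge b a hb ha)
  have hpos : ∀ a, 0 < g a - m * f a := by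
    intro a
    rcases lt_trichotomy (f a) 0 with h | h | h
    · have h1 := hm1 (g a / f a) (mem_image.2 ⟨a, by simp [h], rfl⟩)
      rw [div_lt_iff_of_neg h] at h1
      linarith
    · have h1 := he a a 0 le_rfl zero_le_one (by rw [h]; ring)
      rw [h]
      linarith
    · have h1 := hm2 (g a / f a) (mem_image.2 ⟨a, by simp [h], rfl⟩)
      rw [lt_div_iff₀ h] at h1
      linarith
  have e : ∑ a, lam a * g a = ∑ a, lam a * (g a - m * f a) := by
    have h1 : ∑ a, lam a * (g a - m * f a) = ∑ a, lam a * g a - m * ∑ a, lam a * f a := by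
      rw [mul_sum, ← sum_sub_distrib]
      exact sum_congr rfl fun a _ => by ring
    rw [h1, hf]; ring
  rw [e]
  have hex : ∃ a, 0 < lam a := by
    by_contra hc
    push Not at hc
    have : ∑ a, lam a ≤ 0 := sum_nonpos fun a _ => hc a
    linarith
  obtain ⟨a, ha⟩ := hex
  exact sum_pos' (fun i _ => mul_nonneg (hl i) (hpos i).le) ⟨a, mem_univ _, mul_pos ha (hpos a)⟩

end Pool.Agent.Q139.TC.TEdge
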