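import Pool.Agent.Q139.TC.Stmts

namespace Pool.Agent.Q139.TC.TExit

theorem main : Pool.Agent.Q139.TC.TExit := by
  intro lam δ j₀ hlam hδ hsum hj₀
  have hne : (Finset.univ.filter fun k => δ k < 0).Nonempty := by
    by_contra h
    rw [Finset.not_nonempty_iff_eq_empty, Finset.filter_eq_empty_iff] at h
    apply hδ
    have h1 : ∀ k ∈ (Finset.univ : Finset (Fin 4)), 0 ≤ δ k := fun k hk => not_lt.1 (h hk)
    have h2 := (Finset.sum_eq_zero_iff_of_nonneg h1).1 hsum
    funext k
    exact h2 k (Finset.mem_univ k)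
  obtain ⟨j, hj, hmin⟩ := Finset.exists_min_image _ (fun k => lam k / (-δ k)) hne
  rw [Finset.mem_filter] at hj
  have hjneg : 0 < -δ j := by linarith [hj.2]
  refine ⟨lam j / (-δ j), div_nonneg (hlam j) hjneg.le, ?_, j, ?_, ?_⟩
  · intro k
    by_cases hk : δ k < 0
    · have h1 := hmin k (Finset.mem_filter.2 ⟨Finset.mem_univ k, hk⟩)
      have h2 : 0 < -δ k := by linarith
      rw [le_div_iff₀ h2] at h1
      linarith
    · have h2 : 0 ≤ lam j / (-δ j) := div_nonneg (hlam j) hjneg.le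
      have h3 := mul_nonneg h2 (not_lt.1 hk)
      linarith [hlam k]
  · rintro rfl
    linarith [hj.2]
  · have h3 : lam j / (-δ j) * (-δ j) = lam j := div_mul_cancel₀ _ hjneg.ne'
    linarith

end Pool.Agent.Q139.TC.TExit
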