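import Pool.Agent.Q139.TC.Stmts

set_option autoImplicit false

namespace Pool.Agent.Q139.TC.TM1

open Pool.Agent.Q139.TC

private theorem pt (x l : Fin 3 → ℝ) (h : l 0 + l 1 + l 2 = 0) :
    ∃ p : E, (∀ i, xx i p = x i) ∧ ∀ i, ell i p = l i := by
  refine ⟨WithLp.toLp 2 ![x 0, x 1, x 2, l 0, l 1], ?_, ?_⟩
  · intro i
    fin_cases i <;> simp [xx]
  · intro i
    fin_cases i
    · simp [ell]
    · simp [ell]
    · simp [ell]
      linarith

theorem main : Pool.Agent.Q139.TC.TM1 := by
  intro k i
  obtain ⟨l, hsum, hi, hk, hj⟩ : ∃ l : Fin 3 → ℝ, l 0 + l 1 + l 2 = 0 ∧ l i = 3 ∧ 0 < l k ∧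
      ∀ j, -10 < l j := by
    by_cases hki : k = i
    · subst hki
      refine ⟨fun j => if j = k then 3 else -3 / 2, ?_, by simp, by simp, fun j => ?_⟩
      · fin_cases k <;> norm_num [Fin.ext_iff]
      · dsimp only
        split_ifs <;> norm_num
    · refine ⟨fun j => if j = i then 3 else if j = k then 1 else -4, ?_, by simp, ?_, fun j => ?_⟩
      · fin_cases k <;> fin_cases i <;> first | exact absurd rfl hki | norm_num [Fin.ext_iff]
      · simp [hki]
      · dsimp only
        split_ifs <;> norm_num
  obtain ⟨c, hx, hl⟩ := pt (fun j => if j = i then -1 else 10) l hsum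
  have hxi : xx i c = -1 := by rw [hx]; simp
  have hxj : ∀ j, j ≠ i → xx j c = 10 := fun j h => by rw [hx]; simp [h]
  have star : ∀ p ∈ NN k ∩ AA i, ∀ a b : ℝ, 0 ≤ a → 0 ≤ b → a + b = 1 →
      a • c + b • p ∈ NN k ∩ AA i := by
    rintro p ⟨⟨hp1, hp2⟩, hp3, hp4⟩ a b ha hb hab
    have comb : ∀ s t : ℝ, 0 < s → 0 < t → 0 < a * s + b * t := by
      intro s t hs ht
      rcases ha.eq_or_lt with h0 | h0
      · have hb1 : b = 1 := by linarith
        rw [← h0, hb1]
        linarith
      · have h2 : 0 < a * s := mul_pos h0 hs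
        have h3 : 0 ≤ b * t := mul_nonneg hb ht.le
        linarith
    have ex : ∀ j, xx j (a • c + b • p) = a * xx j c + b * xx j p := fun j => by
      rw [map_add, map_smul, map_smul, smul_eq_mul, smul_eq_mul]
    have el : ∀ j, ell j (a • c + b • p) = a * ell j c + b * ell j p := fun j => by
      rw [map_add, map_smul, map_smul, smul_eq_mul, smul_eq_mul]
    have hn : ∀ j, 0 < xx j (a • c + b • p) ∨
        0 < xx j (a • c + b • p) + ell j (a • c + b • p) := by
      intro j
      by_cases h : j = i
      · subst h
        right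
        have h1 : 0 < xx j p + ell j p := by
          rcases hp2 j with h2 | h2
          · exact absurd hp3 (by linarith)
          · exact h2
        have h2 := comb (xx j c + ell j c) (xx j p + ell j p) (by rw [hxi, hl, hi]; norm_num) h1
        rw [ex, el]
        linarith
      · rcases hp2 j with h1 | h1
        · left
          rw [ex]
          exact comb _ _ (by rw [hxj j h]; norm_num) h1
        · right
          have h3 := hj j
          have h2 := comb (xx j c + ell j c) (xx j p + ell j p) (by rw [hxj j h, hl]; linarith) h1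
          rw [ex, el]
          linarith
    refine ⟨⟨?_, hn⟩, ?_, fun j => ?_⟩
    · rw [el]
      exact comb _ _ (by rw [hl]; exact hk) hp1
    · have h2 := comb (-xx i c) (-xx i p) (by rw [hxi]; norm_num) (by linarith)
      rw [ex]
      linarith
    · by_cases h : xx j (a • c + b • p) = 0
      · right
        rcases hn j with h1 | h1
        · rw [h] at h1
          exact absurd h1 (lt_irrefl 0)
        · rw [h, zero_add] at h1
          exact h1
      · exact Or.inl h
  refine ⟨c, ⟨⟨by rw [hl]; exact hk, fun j => ?_⟩, by rw [hxi]; norm_num, fun j => ?_⟩, ?_⟩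
  · by_cases h : j = i
    · subst h
      right
      rw [hxi, hl, hi]
      norm_num
    · left
      rw [hxj j h]
      norm_num
  · left
    by_cases h : j = i
    · subst h
      rw [hxi]
      norm_num
    · rw [hxj j h]
      norm_num
  · intro p hp a b ha hb hab
    exact star p hp a b ha hb hab

end Pool.Agent.Q139.TC.TM1
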