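import Pool.Agent.Q139.TC.Stmts

set_option autoImplicit false

namespace Pool.Agent.Q139.TC.TM3

open Pool.Agent.Q139.TC

lemma pt (x l : Fin 3 → ℝ) (h : l 0 + l 1 + l 2 = 0) :
    ∃ p : E, (∀ i, xx i p = x i) ∧ ∀ i, ell i p = l i := by
  refine ⟨!₂[x 0, x 1, x 2, l 0, l 1], fun i => ?_, fun i => ?_⟩
  · fin_cases i <;> simp [xx]
  · fin_cases i
    · simp [ell]
    · simp [ell]
    · simp [ell]
      linarith

theorem main : Pool.Agent.Q139.TC.TM3 := by
  intro j k hjk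
  obtain ⟨p, hx, hl⟩ := pt (fun i => if i = k then -1 else 10)
    (fun i => if i = j ∨ i = k then 2 else -4) (by
      fin_cases j <;> fin_cases k <;> simp at hjk ⊢ <;> norm_num)
  have hN : ∀ i, 0 < xx i p ∨ 0 < xx i p + ell i p := by
    intro i
    rw [hx, hl]
    by_cases hi : i = k
    · right
      rw [if_pos hi, if_pos (Or.inr hi)]
      norm_num
    · left
      rw [if_neg hi]
      norm_num
  refine ⟨p, ⟨⟨?_, hN⟩, ⟨?_, hN⟩⟩, ?_, ?_⟩
  · rw [hl, if_pos (Or.inl rfl)]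
    norm_num
  · rw [hl, if_pos (Or.inr rfl)]
    norm_num
  · rw [hx, if_pos rfl]
    norm_num
  · intro i
    left
    rw [hx]
    split_ifs <;> norm_num

end Pool.Agent.Q139.TC.TM3
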