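import Pool.Agent.Q139.TC.Stmts

set_option autoImplicit false

namespace Pool.Agent.Q139.TC.TM4

lemma aux {a b c : Set E} (ha : IsPathConnected a) (hb : IsPathConnected b)
    (hc : IsPathConnected c) (hab : (a ∩ b).Nonempty) (hac : (a ∩ c).Nonempty) :
    IsPathConnected (a ∪ b ∪ c) := by
  refine (ha.union hb hab).union hc ?_
  obtain ⟨x, h1, h2⟩ := hac
  exact ⟨x, Or.inl h1, h2⟩

theorem main (h1 : TM1) (h2 : TM2) : Pool.Agent.Q139.TC.TM4 := by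
  intro k
  have hP : ∀ i, IsPathConnected (NN k ∩ AA i) := by
    intro i
    obtain ⟨c, hc, hs⟩ := h1 k i
    exact hs.isPathConnected hc
  have hI : ∀ i, k ≠ i → ((NN k ∩ AA k) ∩ (NN k ∩ AA i)).Nonempty := by
    intro i hi
    obtain ⟨x, ⟨hx1, hx2⟩, hx3⟩ := h2 k i hi
    exact ⟨x, ⟨hx1, hx2⟩, hx1, hx3⟩
  have e : (AA 0 ∪ AA 1 ∪ AA 2) ∩ NN k = (NN k ∩ AA 0) ∪ (NN k ∩ AA 1) ∪ (NN k ∩ AA 2) := by
    ext x
    simp only [Set.mem_inter_iff, Set.mem_union]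
    tauto
  rw [e]
  have h3 : k = 0 ∨ k = 1 ∨ k = 2 := by
    fin_cases k <;> simp
  rcases h3 with rfl | rfl | rfl
  · exact aux (hP 0) (hP 1) (hP 2) (hI 1 (by decide)) (hI 2 (by decide))
  · have := aux (hP 1) (hP 0) (hP 2) (hI 0 (by decide)) (hI 2 (by decide))
    rwa [Set.union_comm (NN 1 ∩ AA 1)] at this
  · have := aux (hP 2) (hP 0) (hP 1) (hI 0 (by decide)) (hI 1 (by decide))
    rwa [Set.union_assoc, Set.union_comm (NN 2 ∩ AA 2)] at this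

end Pool.Agent.Q139.TC.TM4
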