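import Pool.Agent.Q139.TC.Stmts

namespace Pool.Agent.Q139.TC.TN1

open Pool.Agent.Q139.TC

private theorem ell0 (p : E) : ell 0 p = p 3 := rfl
private theorem ell1 (p : E) : ell 1 p = p 4 := rfl
private theorem ell2 (p : E) : ell 2 p = -(p 3 + p 4) := rfl
private theorem xxi (i : Fin 3) (p : E) : xx i p = p i.castSucc.castSucc := rfl

/-- a point with `xx = 10` and prescribed `ell 0`, `ell 1` -/
private theorem pt (a b : ℝ) : ∃ p : E, (∀ i, xx i p = 10) ∧ ell 0 p = a ∧ ell 1 p = b ∧
    ell 2 p = -(a + b) := by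
  refine ⟨!₂[10, 10, 10, a, b], ?_, rfl, rfl, rfl⟩
  intro i
  fin_cases i <;> rfl

private theorem star (k : Fin 3) (c : E) (hc : ∀ i, xx i c = 10) (hk : 0 < ell k c)
    (h : ∀ i, 0 < xx i c + ell i c) : c ∈ NN k ∧ StarConvex ℝ c (NN k) := by
  refine ⟨⟨hk, fun i => Or.inl (by rw [hc]; norm_num)⟩, ?_⟩
  intro y hy a b ha hb hab
  refine ⟨?_, fun i => ?_⟩
  · rw [map_add, map_smul, map_smul, smul_eq_mul, smul_eq_mul]
    rcases ha.eq_or_lt with h0 | h0
    · have : b = 1 := by linarith
      rw [← h0, this]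
      simpa using hy.1
    · have := mul_pos h0 hk
      have := mul_nonneg hb hy.1.le
      linarith
  · rcases hy.2 i with h1 | h1
    · left
      rw [map_add, map_smul, map_smul, smul_eq_mul, smul_eq_mul]
      rcases ha.eq_or_lt with h0 | h0
      · have : b = 1 := by linarith
        rw [← h0, this]
        simpa using h1
      · have h2 : 0 < xx i c := by rw [hc]; norm_num
        have := mul_pos h0 h2
        have := mul_nonneg hb h1.le
        linarith
    · right
      rw [map_add, map_smul, map_smul, map_add, map_smul, map_smul, smul_eq_mul, smul_eq_mul,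
        smul_eq_mul, smul_eq_mul]
      rcases ha.eq_or_lt with h0 | h0
      · have : b = 1 := by linarith
        rw [← h0, this]
        simpa using h1
      · have := mul_pos h0 (h i)
        have := mul_nonneg hb h1.le
        nlinarith

theorem main : Pool.Agent.Q139.TC.TN1 := by
  intro k
  fin_cases k
  · obtain ⟨p, h0, h1, h2, h3⟩ := pt 1 1
    refine ⟨p, star 0 p h0 (by rw [h1]; norm_num) ?_⟩
    intro i
    fin_cases i
    · show 0 < xx 0 p + ell 0 p
      rw [h0, h1]; norm_num
    · show 0 < xx 1 p + ell 1 p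
      rw [h0, h2]; norm_num
    · show 0 < xx 2 p + ell 2 p
      rw [h0, h3]; norm_num
  · obtain ⟨p, h0, h1, h2, h3⟩ := pt 1 1
    refine ⟨p, star 1 p h0 (by rw [h2]; norm_num) ?_⟩
    intro i
    fin_cases i
    · show 0 < xx 0 p + ell 0 p
      rw [h0, h1]; norm_num
    · show 0 < xx 1 p + ell 1 p
      rw [h0, h2]; norm_num
    · show 0 < xx 2 p + ell 2 p
      rw [h0, h3]; norm_num
  · obtain ⟨p, h0, h1, h2, h3⟩ := pt (-2) 1
    refine ⟨p, star 2 p h0 (by rw [h3]; norm_num) ?_⟩
    intro i
    fin_cases i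
    · show 0 < xx 0 p + ell 0 p
      rw [h0, h1]; norm_num
    · show 0 < xx 1 p + ell 1 p
      rw [h0, h2]; norm_num
    · show 0 < xx 2 p + ell 2 p
      rw [h0, h3]; norm_num

end Pool.Agent.Q139.TC.TN1
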