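import Pool.Agent.Q139.TC.Stmts

/-! Blueprint for MP_a4ef96_gt: the intersections `NN j ∩ NN k` are star-shaped. -/

namespace Pool.Agent.Q139.TC.TN2

open Pool.Agent.Q139.TC

theorem pt (x l : Fin 3 → ℝ) (h : l 0 + l 1 + l 2 = 0) :
    ∃ p : E, (∀ i, xx i p = x i) ∧ ∀ i, ell i p = l i := by
  refine ⟨!₂[x 0, x 1, x 2, l 0, l 1], ?_, ?_⟩
  · intro i
    fin_cases i <;> simp [xx]
  · intro i
    fin_cases i
    · simp [ell]
    · simp [ell]
    · simp [ell]
      linarith

theorem comb (a b u v : ℝ) (ha : 0 ≤ a) (hb : 0 ≤ b) (hab : a + b = 1) (hu : 0 < u) (hv : 0 < v) :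
    0 < a * u + b * v := by
  rcases ha.eq_or_lt with h | h
  · rw [← h] at hab ⊢
    have : b = 1 := by linarith
    rw [this]; linarith
  · have h1 : 0 < a * u := mul_pos h hu
    have h2 : 0 ≤ b * v := mul_nonneg hb hv.le
    linarith

theorem main : Pool.Agent.Q139.TC.TN2 := by
  intro j k hjk
  let l : Fin 3 → ℝ := fun i => if i = j ∨ i = k then 1 else -2
  have hl : l 0 + l 1 + l 2 = 0 := by
    fin_cases j <;> fin_cases k <;> first | exact absurd rfl hjk | (simp [l]; try norm_num)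
  obtain ⟨c, hcx, hcl⟩ := pt (fun _ => 10) l hl
  have hlj : l j = 1 := if_pos (Or.inl rfl)
  have hlk : l k = 1 := if_pos (Or.inr rfl)
  have hlb : ∀ i, -2 ≤ l i := by
    intro i
    show (-2 : ℝ) ≤ if i = j ∨ i = k then 1 else -2
    split_ifs <;> norm_num
  have hcx' : ∀ i, 0 < xx i c := fun i => by rw [hcx]; norm_num
  have hcs : ∀ i, 0 < xx i c + ell i c := fun i => by
    rw [hcx, hcl]
    have := hlb i
    linarith
  have hcj : 0 < ell j c := by rw [hcl, hlj]; norm_num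
  have hck : 0 < ell k c := by rw [hcl, hlk]; norm_num
  refine ⟨c, ⟨⟨hcj, fun i => Or.inl (hcx' i)⟩, ⟨hck, fun i => Or.inl (hcx' i)⟩⟩, ?_⟩
  rintro p ⟨⟨hpj, hp⟩, ⟨hpk, -⟩⟩ a b ha hb hab
  have hall : ∀ i, 0 < xx i (a • c + b • p) ∨ 0 < xx i (a • c + b • p) + ell i (a • c + b • p) := by
    intro i
    rcases hp i with h | h
    · left
      rw [map_add, map_smul, map_smul, smul_eq_mul, smul_eq_mul]
      exact comb a b _ _ ha hb hab (hcx' i) h
    · right
      rw [map_add, map_smul, map_smul, map_add, map_smul, map_smul]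
      simp only [smul_eq_mul]
      have := comb a b _ _ ha hb hab (hcs i) h
      linarith
  refine ⟨⟨?_, hall⟩, ⟨?_, hall⟩⟩
  · rw [map_add, map_smul, map_smul, smul_eq_mul, smul_eq_mul]
    exact comb a b _ _ ha hb hab hcj hpj
  · rw [map_add, map_smul, map_smul, smul_eq_mul, smul_eq_mul]
    exact comb a b _ _ ha hb hab hck hpk

end Pool.Agent.Q139.TC.TN2
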