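import Pool.Agent.Q139.TC.Stmts

namespace Pool.Agent.Q139.TC.TOpen

open Pool.Agent.Q139.TC

theorem main : Pool.Agent.Q139.TC.TOpen := by
  have hx : ∀ i, Continuous (fun p : E => xx i p) := fun i => (xx i).continuous
  have hl : ∀ i, Continuous (fun p : E => ell i p) := fun i => (ell i).continuous
  have h1 : IsOpen {p : E | ∀ i, xx i p ≠ 0 ∨ 0 < ell i p} := by
    rw [Set.setOf_forall]
    exact isOpen_iInter_of_finite fun i =>
      (isOpen_ne_fun (hx i) continuous_const).union (isOpen_lt continuous_const (hl i))
  have h2 : IsClosed {p : E | (∀ i, ell i p = 0) ∧ ∀ i, 0 ≤ xx i p} := by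
    rw [Set.setOf_and, Set.setOf_forall, Set.setOf_forall]
    exact (isClosed_iInter fun i => isClosed_eq (hl i) continuous_const).inter
      (isClosed_iInter fun i => isClosed_le continuous_const (hx i))
  refine ⟨h1.inter h2.isOpen_compl, fun k => (isOpen_lt (hx k) continuous_const).inter h1,
    fun k => ?_⟩
  have h3 : IsOpen {p : E | ∀ i, 0 < xx i p ∨ 0 < xx i p + ell i p} := by
    rw [Set.setOf_forall]
    exact isOpen_iInter_of_finite fun i =>
      (isOpen_lt continuous_const (hx i)).union
        (isOpen_lt continuous_const ((hx i).add (hl i)))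
  exact (isOpen_lt continuous_const (hl k)).inter h3

end Pool.Agent.Q139.TC.TOpen
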