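import Pool.Agent.Q139.TC.Stmts

namespace Pool.Agent.Q139.TC.TPl

open Pool.Agent.Q139.TC

theorem xx_pl (z : ℂ) (i : Fin 3) : xx i (pl z) = 1 := by
  fin_cases i <;> simp [xx, pl, EuclideanSpace.proj]

theorem ell_pl0 (z : ℂ) : ell 0 (pl z) = z.re := by
  simp [ell, pl]

theorem ell_pl1 (z : ℂ) : ell 1 (pl z) = z.im := by
  simp [ell, pl]

theorem ell_pl2 (z : ℂ) : ell 2 (pl z) = -(z.re + z.im) := by
  simp [ell, pl]

theorem cont_pl : Continuous pl := by
  unfold pl
  refine (PiLp.continuous_toLp 2 _).comp ?_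
  refine continuous_pi fun i => ?_
  fin_cases i <;> simp <;> first | exact continuous_const | exact Complex.continuous_re | exact Complex.continuous_im

theorem main : TPl := by
  refine ⟨?_, ?_⟩
  · have hg : Continuous (fun p : E => (⟨p 3, p 4⟩ : ℂ)) := by
      have : (fun p : E => (⟨p 3, p 4⟩ : ℂ)) = fun p : E => ((p 3 : ℝ) : ℂ) + ((p 4 : ℝ) : ℂ) * Complex.I := by
        funext p
        apply Complex.ext <;> simp
      rw [this]
      fun_prop
    have hl : Function.LeftInverse (fun p : E => (⟨p 3, p 4⟩ : ℂ)) pl := by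
      intro z
      apply Complex.ext <;> simp [pl]
    exact hl.isEmbedding hg cont_pl
  · intro z
    constructor
    · rintro ⟨-, h2⟩ rfl
      refine h2 ⟨?_, fun i => by rw [xx_pl]; norm_num⟩
      intro i
      fin_cases i
      · exact (ell_pl0 0).trans (by simp)
      · exact (ell_pl1 0).trans (by simp)
      · exact (ell_pl2 0).trans (by simp)
    · intro hz
      refine ⟨fun i => Or.inl (by rw [xx_pl]; norm_num), ?_⟩
      rintro ⟨h, -⟩
      apply hz
      have h0 := h 0
      have h1 := h 1
      rw [ell_pl0] at h0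
      rw [ell_pl1] at h1
      exact Complex.ext h0 h1

end Pool.Agent.Q139.TC.TPl
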