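import Pool.Agent.Q139.TC.Stmts

set_option autoImplicit false

namespace Pool.Agent.Q139.TC.TPlane

open Pool.Agent.Q139.TC

noncomputable def L : ℂ →ₗ[ℝ] E where
  toFun z := !₂[0, 0, 0, z.re, z.im]
  map_add' a b := by
    ext i
    fin_cases i <;> simp
  map_smul' r a := by
    ext i
    fin_cases i <;> simp

theorem L_inj : Function.Injective L := by
  intro a b h
  have h3 : (L a) 3 = (L b) 3 := by rw [h]
  have h4 : (L a) 4 = (L b) 4 := by rw [h]
  apply Complex.ext
  · simpa [L] using h3
  · simpa [L] using h4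

theorem pl_eq (z : ℂ) : pl z = pl 0 + L z := by
  ext i
  fin_cases i <;> simp [pl, L]

theorem main : Pool.Agent.Q139.TC.TPlane := by
  refine ⟨AffineSubspace.mk' (pl 0) (LinearMap.range L), ?_, ?_⟩
  · rw [AffineSubspace.direction_mk', LinearMap.finrank_range_of_inj L_inj,
      Complex.finrank_real_complex]
  · ext p
    rw [SetLike.mem_coe, AffineSubspace.mem_mk', vsub_eq_sub]
    constructor
    · rintro ⟨z, hz⟩
      refine ⟨z, ?_⟩
      rw [pl_eq, hz]
      abel
    · rintro ⟨z, rfl⟩
      refine ⟨z, ?_⟩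
      rw [pl_eq z]
      abel

end Pool.Agent.Q139.TC.TPlane
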