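import Mathlib
import Pool.Agent.Q139.TC.Stmts

set_option autoImplicit false

namespace Pool.Agent.Q139.TC.TPunct

open Pool.Agent.Q139.TC Complex

theorem main : TPunct := by
  intro hsc
  have ho : IsOpen ({0}ᶜ : Set ℂ) := isOpen_compl_singleton
  obtain ⟨f, hfc, hf⟩ := Complex.exists_continuousOn_eqOn_exp_comp (g := fun z : ℂ => z) hsc ho
    continuousOn_id (by simp)
  have hf' : ∀ z : ℂ, z ≠ 0 → exp (f z) = z := fun z hz => hf hz
  have hE : Continuous fun θ : ℝ => exp (θ * I) := by fun_prop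
  have hF : Continuous fun θ : ℝ => f (exp (θ * I)) := by
    refine hfc.comp_continuous hE ?_
    intro x
    exact exp_ne_zero _
  have key : ∀ θ : ℝ, ∃ n : ℤ, f (exp (θ * I)) = θ * I + n * (2 * Real.pi * I) := by
    intro θ
    have h1 : exp (f (exp (θ * I))) = exp (θ * I) := hf' _ (exp_ne_zero _)
    obtain ⟨n, hn⟩ := Complex.exp_eq_exp_iff_exists_int.1 h1
    exact ⟨n, hn⟩
  have key2 : ∀ θ : ℝ, ∃ n : ℤ, (f (exp (θ * I))).im - θ = n * (2 * Real.pi) := by
    intro θ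
    obtain ⟨n, hn⟩ := key θ
    refine ⟨n, ?_⟩
    rw [hn]
    simp
  have hG : Continuous fun θ : ℝ => (f (exp (θ * I))).im - θ := by
    have := Complex.continuous_im.comp hF
    exact this.sub continuous_id
  obtain ⟨n0, hn0⟩ := key2 0
  have h2 : (f (exp ((2 * Real.pi : ℝ) * I))).im = (f (exp ((0 : ℝ) * I))).im := by
    have e : exp (((2 * Real.pi : ℝ) : ℂ) * I) = exp (((0 : ℝ) : ℂ) * I) := by
      push_cast
      rw [Complex.exp_two_pi_mul_I, zero_mul, Complex.exp_zero]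
    rw [e]
  have hpi := Real.pi_pos
  have hr : ((n0 : ℝ) * (2 * Real.pi) - Real.pi) ∈
      Set.range fun θ : ℝ => (f (exp (θ * I))).im - θ := by
    refine mem_range_of_exists_le_of_exists_ge hG ⟨2 * Real.pi, ?_⟩ ⟨0, ?_⟩
    · show (f (exp ((2 * Real.pi : ℝ) * I))).im - 2 * Real.pi ≤ _
      rw [h2]
      linarith
    · show _ ≤ (f (exp ((0 : ℝ) * I))).im - 0
      linarith
  obtain ⟨θ, hθ⟩ := hr
  obtain ⟨n, hn⟩ := key2 θ
  have h3 : (n : ℝ) * (2 * Real.pi) = (n0 : ℝ) * (2 * Real.pi) - Real.pi := by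
    rw [← hn]; exact hθ
  have h4 : (2 * (n : ℝ) - 2 * n0 + 1) * Real.pi = 0 := by linarith
  have h5 : (2 * (n : ℝ) - 2 * n0 + 1) = 0 := by
    rcases mul_eq_zero.1 h4 with h | h
    · exact h
    · exact absurd h hpi.ne'
  have h6 : (2 * n - 2 * n0 + 1 : ℤ) = 0 := by exact_mod_cast h5
  omega

end Pool.Agent.Q139.TC.TPunct
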