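import Pool.Agent.Q139.TC.Stmts

namespace Pool.Agent.Q139.TC.TSC

open Pool.Agent.Q139.TC

theorem starPC (c : E) (U : Set E) (hc : c ∈ U) (h : StarConvex ℝ c U) : IsPathConnected U :=
  StarConvex.isPathConnected h hc

theorem main (hU : TUnion) (hS : TStar) (hO : TOpen) (hA : TAU) (h1 : TN1) (h2 : TN2) (h3 : TM3)
    (h4 : TM4) (hC : TCov) : Pool.Agent.Q139.TC.TSC := by
  obtain ⟨-, hOA, hON⟩ := hO
  have hN : ∀ k, IsSimplyConnected (NN k) := by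
    intro k
    obtain ⟨c, hc, hs⟩ := h1 k
    exact hS c _ hc hs
  have hNN : ∀ j k, j ≠ k → IsPathConnected (NN j ∩ NN k) := by
    intro j k hjk
    obtain ⟨c, hc, hs⟩ := h2 j k hjk
    exact starPC c _ hc hs
  have hUo : IsOpen (AA 0 ∪ AA 1 ∪ AA 2) := ((hOA 0).union (hOA 1)).union (hOA 2)
  -- step 1
  have s1 : IsSimplyConnected (AA 0 ∪ AA 1 ∪ AA 2 ∪ NN 0) :=
    hU _ _ hUo (hON 0) hA (hN 0) (h4 0)
  have o1 : IsOpen (AA 0 ∪ AA 1 ∪ AA 2 ∪ NN 0) := hUo.union (hON 0)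
  -- step 2
  have i2 : IsPathConnected ((AA 0 ∪ AA 1 ∪ AA 2 ∪ NN 0) ∩ NN 1) := by
    rw [Set.union_inter_distrib_right]
    apply IsPathConnected.union (h4 1) (hNN 0 1 (by decide))
    obtain ⟨x, ⟨hx0, hx1⟩, hxA⟩ := h3 0 1 (by decide)
    exact ⟨x, ⟨Or.inl (Or.inr hxA), hx1⟩, hx0, hx1⟩
  have s2 : IsSimplyConnected (AA 0 ∪ AA 1 ∪ AA 2 ∪ NN 0 ∪ NN 1) :=
    hU _ _ o1 (hON 1) s1 (hN 1) i2
  have o2 : IsOpen (AA 0 ∪ AA 1 ∪ AA 2 ∪ NN 0 ∪ NN 1) := o1.union (hON 1)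
  -- step 3
  have i3 : IsPathConnected ((AA 0 ∪ AA 1 ∪ AA 2 ∪ NN 0 ∪ NN 1) ∩ NN 2) := by
    rw [Set.union_inter_distrib_right, Set.union_inter_distrib_right]
    apply IsPathConnected.union _ (hNN 1 2 (by decide))
    · obtain ⟨x, ⟨hx1, hx2⟩, hxA⟩ := h3 1 2 (by decide)
      exact ⟨x, Or.inl ⟨Or.inr hxA, hx2⟩, hx1, hx2⟩
    · apply IsPathConnected.union (h4 2) (hNN 0 2 (by decide))
      obtain ⟨x, ⟨hx0, hx2⟩, hxA⟩ := h3 0 2 (by decide)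
      exact ⟨x, ⟨Or.inr hxA, hx2⟩, hx0, hx2⟩
  have s3 : IsSimplyConnected (AA 0 ∪ AA 1 ∪ AA 2 ∪ NN 0 ∪ NN 1 ∪ NN 2) :=
    hU _ _ o2 (hON 2) s2 (hN 2) i3
  unfold Pool.Agent.Q139.TC.TSC
  rw [hC]
  exact s3

end Pool.Agent.Q139.TC.TSC
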