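import Pool.Agent.Q139.TC.Stmts

/-! Proof of `TStar` (MP_a4ef96_gt), helper240. -/

namespace Pool.Agent.Q139.TC.TStar

open Pool.Agent.Q139.TC

theorem main : Pool.Agent.Q139.TC.TStar := by
  intro c U hc hU
  have h := hU.contractibleSpace ⟨c, hc⟩
  show SimplyConnectedSpace U
  infer_instance

end Pool.Agent.Q139.TC.TStar
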