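import Pool.Agent.Q139.TC.Stmts

namespace Pool.Agent.Q139.TC.TTwo

open Pool.Agent.Q139.TC

theorem hull_coef {v : Fin 4 → E} {p : E} (hp : p ∈ convexHull ℝ (Set.range v)) :
    ∃ lam : Fin 4 → ℝ, (∀ k, 0 ≤ lam k) ∧ ∑ k, lam k = 1 ∧ ∑ k, lam k • v k = p := by
  classical
  set L : (Fin 4 → ℝ) →ₗ[ℝ] E :=
    ∑ k, (LinearMap.proj k : (Fin 4 → ℝ) →ₗ[ℝ] ℝ).smulRight (v k) with hL
  have hLa : ∀ w : Fin 4 → ℝ, L w = ∑ k, w k • v k := by
    intro w
    rw [hL]
    simp [LinearMap.sum_apply]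
  have hsub : convexHull ℝ (Set.range v) ⊆ L '' stdSimplex ℝ (Fin 4) := by
    apply convexHull_min
    · rintro _ ⟨k, rfl⟩
      refine ⟨Pi.single k 1, single_mem_stdSimplex ℝ k, ?_⟩
      rw [hLa]
      rw [Finset.sum_eq_single k]
      · simp
      · intro b _ hb
        simp [Pi.single_eq_of_ne hb]
      · simp
    · exact (convex_stdSimplex ℝ (Fin 4)).linear_image L
  obtain ⟨w, hw, hwp⟩ := hsub hp
  exact ⟨w, hw.1, hw.2, by rw [← hLa]; exact hwp⟩

theorem main (hWall : Pool.Agent.Q139.TC.TWall) (hDir : Pool.Agent.Q139.TC.TDir)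
    (hExit : Pool.Agent.Q139.TC.TExit) : Pool.Agent.Q139.TC.TTwo := by
  classical
  intro v _hv j₀ hfaces p hp
  have hwalls : ∀ q ∈ convexHull ℝ (Set.range v), ∀ i, xx i q ≠ 0 ∨ 0 < ell i q := by
    intro q hq i
    exact hWall (xx i) (ell i) v j₀ (fun j hj r hr => (hfaces j hj hr).1 i) q hq
  refine ⟨hwalls p hp, ?_⟩
  rintro ⟨hell, hxx⟩
  obtain ⟨lam, hlam0, hlam1, hlamp⟩ := hull_coef hp
  obtain ⟨δ, hδ0, hδs, hδa, hδb, hδj⟩ := hDir (fun k => ell 0 (v k)) (fun k => ell 1 (v k)) j₀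
  obtain ⟨t, ht0, htk, j, hj, hjt⟩ := hExit lam δ j₀ hlam0 hδ0 hδs hδj
  set q : E := ∑ k, (lam k + t * δ k) • v k with hq
  have hqface : q ∈ convexHull ℝ (v '' {j}ᶜ) := by
    have e1 : q = ∑ k ∈ Finset.univ.erase j, (lam k + t * δ k) • v k := by
      rw [hq, ← Finset.add_sum_erase _ _ (Finset.mem_univ j), hjt, zero_smul, zero_add]
    have e2 : ∑ k ∈ Finset.univ.erase j, (lam k + t * δ k) = 1 := by
      have h3 : ∑ k, (lam k + t * δ k) = 1 := by
        rw [Finset.sum_add_distrib, ← Finset.mul_sum, hδs, hlam1]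
        ring
      rw [← Finset.add_sum_erase _ _ (Finset.mem_univ j), hjt, zero_add] at h3
      exact h3
    rw [e1]
    refine (convex_convexHull ℝ _).sum_mem (fun k _ => htk k) e2 (fun k hk => ?_)
    apply subset_convexHull
    exact ⟨k, by simpa using (Finset.mem_erase.1 hk).1, rfl⟩
  have hqOm : q ∈ Om := hfaces j hj hqface
  have hqhull : q ∈ convexHull ℝ (Set.range v) :=
    convexHull_mono (Set.image_subset_range _ _) hqface
  have hlin : ∀ (f : E →L[ℝ] ℝ), ∑ k, δ k * f (v k) = 0 → f q = f p := by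
    intro f hf
    rw [hq, ← hlamp, map_sum, map_sum]
    simp only [map_smul, smul_eq_mul, add_mul, Finset.sum_add_distrib]
    have : ∑ k, t * δ k * f (v k) = t * ∑ k, δ k * f (v k) := by
      rw [Finset.mul_sum]
      refine Finset.sum_congr rfl fun k _ => by ring
    rw [this, hf, mul_zero, add_zero]
  have hq0 : ell 0 q = 0 := by rw [hlin _ hδa]; exact hell 0
  have hq1 : ell 1 q = 0 := by rw [hlin _ hδb]; exact hell 1
  have hq2 : ell 2 q = 0 := by
    have e3 : ell 2 q = -(ell 0 q + ell 1 q) := by simp [ell]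
    rw [e3, hq0, hq1]
    simp
  have hellq : ∀ i, ell i q = 0 := by
    intro i
    fin_cases i
    · exact hq0
    · exact hq1
    · exact hq2
  have hneg : ∃ i, xx i q < 0 := by
    by_contra hcon
    push Not at hcon
    exact hqOm.2 ⟨hellq, hcon⟩
  obtain ⟨i, hi⟩ := hneg
  have hden : 0 < xx i p - xx i q := by linarith [hxx i]
  set s : ℝ := xx i p / (xx i p - xx i q) with hs
  have hs0 : 0 ≤ s := div_nonneg (hxx i) hden.le
  have hs1 : s ≤ 1 := by
    rw [hs, div_le_one hden]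
    linarith
  have hr : (1 - s) • p + s • q ∈ convexHull ℝ (Set.range v) :=
    (convex_convexHull ℝ _) hp hqhull (by linarith) hs0 (by ring)
  rcases hwalls _ hr i with h | h
  · apply h
    rw [map_add, map_smul, map_smul, smul_eq_mul, smul_eq_mul]
    have : s * (xx i p - xx i q) = xx i p := by
      rw [hs]
      field_simp
    linarith
  · rw [map_add, map_smul, map_smul, smul_eq_mul, smul_eq_mul, hell i, hellq i] at h
    simp at h

end Pool.Agent.Q139.TC.TTwo
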