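import Pool.Agent.Q139.TC.Stmts

set_option autoImplicit false

open Set Metric Filter Topology

namespace Pool.Agent.Q139.TC.TUnion

theorem sc_union {X : Type*} [TopologicalSpace X] {A B : Set X} (hA : IsOpen A) (hB : IsOpen B)
    (sA : SimplyConnectedSpace A) (sB : SimplyConnectedSpace B) (hI : IsPathConnected (A ∩ B)) :
    SimplyConnectedSpace ↥(A ∪ B) := by
  let U : Set ↥(A ∪ B) := Subtype.val ⁻¹' A
  let W : Set ↥(A ∪ B) := Subtype.val ⁻¹' B
  let eA : U ≃ₜ A :=
    { toFun := fun x => ⟨x.1.1, x.2⟩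
      invFun := fun a => ⟨⟨a.1, Or.inl a.2⟩, a.2⟩
      left_inv := fun x => rfl
      right_inv := fun a => rfl
      continuous_toFun := by fun_prop
      continuous_invFun := by fun_prop }
  let eB : W ≃ₜ B :=
    { toFun := fun x => ⟨x.1.1, x.2⟩
      invFun := fun a => ⟨⟨a.1, Or.inr a.2⟩, a.2⟩
      left_inv := fun x => rfl
      right_inv := fun a => rfl
      continuous_toFun := by fun_prop
      continuous_invFun := by fun_prop }
  have sU : SimplyConnectedSpace U := eA.toHomotopyEquiv.simplyConnectedSpace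
  have sW : SimplyConnectedSpace W := eB.toHomotopyEquiv.simplyConnectedSpace
  refine Pool.Agent.Helper562.VK.simplyConnected_of_union (hA.preimage continuous_subtype_val)
    (hB.preimage continuous_subtype_val) ?_ sU sW ?_
  · ext x
    simp only [mem_union, mem_preimage, mem_univ, iff_true]
    exact x.2
  · rw [Topology.IsInducing.subtypeVal.isPathConnected_iff]
    have : Subtype.val '' ((Subtype.val ⁻¹' A : Set ↥(A ∪ B)) ∩ Subtype.val ⁻¹' B) = A ∩ B := by
      ext x
      constructor
      · rintro ⟨y, ⟨h1, h2⟩, rfl⟩; exact ⟨h1, h2⟩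
      · rintro ⟨h1, h2⟩; exact ⟨⟨x, Or.inl h1⟩, ⟨h1, h2⟩, rfl⟩
    rw [this]
    exact hI

theorem main : TUnion := by
  intro U V hU hV sU sV hI
  have h1 : SimplyConnectedSpace U := sU
  have h2 : SimplyConnectedSpace V := sV
  exact sc_union hU hV h1 h2 hI

end Pool.Agent.Q139.TC.TUnion
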