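import Pool.Agent.Q139.TC.Stmts

set_option autoImplicit false

open Pool.Agent.Q139.TC

namespace Pool.Agent.Q139.TC.TWall

theorem exists_weights (v : Fin 4 → E) (p : E) (hp : p ∈ convexHull ℝ (Set.range v)) :
    ∃ lam : Fin 4 → ℝ, (∀ a, 0 ≤ lam a) ∧ ∑ a, lam a = 1 ∧ ∑ a, lam a • v a = p := by
  have hsub : convexHull ℝ (Set.range v) ⊆
      {x : E | ∃ lam : Fin 4 → ℝ, (∀ a, 0 ≤ lam a) ∧ ∑ a, lam a = 1 ∧ ∑ a, lam a • v a = x} := by
    apply convexHull_min
    · rintro _ ⟨a, rfl⟩
      refine ⟨Pi.single a 1, ?_, ?_, ?_⟩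
      · intro b
        by_cases h : b = a
        · subst h; simp
        · simp [Pi.single_eq_of_ne h]
      · simp
      · rw [Finset.sum_eq_single a]
        · simp
        · intro b _ hb
          simp [Pi.single_eq_of_ne hb]
        · intro h
          exact absurd (Finset.mem_univ a) h
    · rintro x ⟨l, h1, h2, h3⟩ y ⟨m, h4, h5, h6⟩ s t hs ht hst
      refine ⟨fun a => s * l a + t * m a, ?_, ?_, ?_⟩
      · intro a
        have := h1 a
        have := h4 a
        positivity
      · rw [Finset.sum_add_distrib, ← Finset.mul_sum, ← Finset.mul_sum, h2, h5, mul_one, mul_one, hst]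
      · rw [← h3, ← h6, Finset.smul_sum, Finset.smul_sum, ← Finset.sum_add_distrib]
        apply Finset.sum_congr rfl
        intro a _
        rw [add_smul, smul_smul, smul_smul]
  exact hsub hp

theorem main (hE : TEdge) : Pool.Agent.Q139.TC.TWall := by
  intro f g v j₀ hface p hp
  obtain ⟨lam, h1, h2, h3⟩ := exists_weights v p hp
  by_cases hf : f p = 0
  · right
    have hsumf : ∑ a, lam a * f (v a) = 0 := by
      rw [← hf, ← h3, map_sum]
      apply Finset.sum_congr rfl
      intro a _
      rw [map_smul, smul_eq_mul]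
    have hsumg : ∑ a, lam a * g (v a) = g p := by
      rw [← h3, map_sum]
      apply Finset.sum_congr rfl
      intro a _
      rw [map_smul, smul_eq_mul]
    rw [← hsumg]
    refine hE (fun a => f (v a)) (fun a => g (v a)) lam h1 h2 hsumf ?_
    intro a b t ht0 ht1 hab
    have hj : ∀ a b j₀ : Fin 4, ∃ j : Fin 4, j ≠ j₀ ∧ a ≠ j ∧ b ≠ j := by decide
    obtain ⟨j, hj0, hja, hjb⟩ := hj a b j₀
    have hq : (1 - t) • v a + t • v b ∈ convexHull ℝ (v '' {j}ᶜ) := by
      apply convex_convexHull ℝ (v '' {j}ᶜ)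
      · exact subset_convexHull ℝ _ ⟨a, hja, rfl⟩
      · exact subset_convexHull ℝ _ ⟨b, hjb, rfl⟩
      · linarith
      · exact ht0
      · ring
    have h := hface j hj0 _ hq
    rw [map_add, map_smul, map_smul, map_add, map_smul, map_smul, smul_eq_mul, smul_eq_mul,
      smul_eq_mul, smul_eq_mul] at h
    rcases h with h | h
    · exact absurd hab h
    · exact h
  · left
    exact hf

end Pool.Agent.Q139.TC.TWall
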