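import Pool.Agent.Q139.TC.TPt
import Pool.Agent.Q139.TC.TEdge
import Pool.Agent.Q139.TC.TWall
import Pool.Agent.Q139.TC.TDir
import Pool.Agent.Q139.TC.TExit
import Pool.Agent.Q139.TC.TTwo
import Pool.Agent.Q139.TC.TUnion
import Pool.Agent.Q139.TC.TStar
import Pool.Agent.Q139.TC.TOpen
import Pool.Agent.Q139.TC.TA1
import Pool.Agent.Q139.TC.TA2
import Pool.Agent.Q139.TC.TA3
import Pool.Agent.Q139.TC.TAU
import Pool.Agent.Q139.TC.TN1
import Pool.Agent.Q139.TC.TN2
import Pool.Agent.Q139.TC.TM1
import Pool.Agent.Q139.TC.TM2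
import Pool.Agent.Q139.TC.TM3
import Pool.Agent.Q139.TC.TM4
import Pool.Agent.Q139.TC.TCov
import Pool.Agent.Q139.TC.TSC
import Pool.Agent.Q139.TC.TPunct
import Pool.Agent.Q139.TC.TPlane
import Pool.Agent.Q139.TC.TPl
import Pool.Agent.H823R3.Pi1Cyclic

/-!
# A `2`-convex open set in `ℝ⁵` which is not Lefschetz-`2`-convex

The set is the complement of three walls and an octant (see the proof): it is simply connected and
`2`-convex, and its section by a plane is a punctured plane.
-/

set_option autoImplicit false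

namespace Pool.Agent.Q139.TC.LefAb

/-- `Ω` is `k`-convex: if `k + 1` of the `k + 2` facets of a (nondegenerate) `(k + 1)`-simplex are
contained in `Ω`, then so is the simplex.  The simplex is the convex hull of the affinely
independent points `v 0, …, v (k + 1)`, the facet opposite to `v j` is the convex hull of the other
points, and the `k + 1` facets are those opposite to `v j`, `j ≠ j₀`. -/
def KConvex {V : Type} [AddCommGroup V] [Module ℝ V] (k : ℕ) (Ω : Set V) : Prop :=
  ∀ v : Fin (k + 2) → V, AffineIndependent ℝ v → ∀ j₀ : Fin (k + 2),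
    (∀ j, j ≠ j₀ → convexHull ℝ (v '' {j}ᶜ) ⊆ Ω) → convexHull ℝ (Set.range v) ⊆ Ω

/-- The first homology group of a path connected space, as the abelianized fundamental group. -/
abbrev H1 (X : Type) [TopologicalSpace X] (x : X) : Type := Abelianization (FundamentalGroup X x)

/-- The map induced on `H1` by the inclusion of a subset `S` in `Ω`. -/
noncomputable def H1.incl {X : Type} [TopologicalSpace X] {S Ω : Set X} (h : S ⊆ Ω) (x : S) :
    H1 S x →* H1 Ω (Set.inclusion h x) :=
  Abelianization.map (FundamentalGroup.map ⟨Set.inclusion h, continuous_inclusion h⟩ x)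

/-- The map `H1 (Ω ∩ A) → H1 Ω` induced by the inclusion is not injective, for every choice of
the base point in `Ω ∩ A`. -/
def NotInjH1 {X : Type} [TopologicalSpace X] (Ω A : Set X) : Prop :=
  ∀ x : ↥(Ω ∩ A), ¬ Function.Injective (H1.incl (Set.inter_subset_left : Ω ∩ A ⊆ Ω) x)

open Pool.Agent.Q139

theorem nontrivial_of_cyclic {G : Type*} [Group G] (Φ : Multiplicative ℤ →* G)
    (hΦ : Function.Surjective Φ) (hG : ¬ Subsingleton G) : ¬ Subsingleton (Abelianization G) := by
  intro hs
  apply hG
  have hcomm : ∀ a b : G, a * b = b * a := by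
    intro a b
    obtain ⟨x, rfl⟩ := hΦ a
    obtain ⟨y, rfl⟩ := hΦ b
    rw [← map_mul, ← map_mul, mul_comm]
  have hbot : commutator G = ⊥ := by
    rw [commutator_def, Subgroup.commutator_eq_bot_iff_le_centralizer]
    intro a _
    rw [Subgroup.mem_centralizer_iff]
    intro b _
    exact hcomm b a
  refine ⟨fun a b => ?_⟩
  have key : ∀ a : G, a = 1 := by
    intro a
    have h1 : Abelianization.of a = 1 := Subsingleton.elim _ _
    have h2 : a ∈ commutator G := by
      rw [← Abelianization.ker_of]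
      exact h1
    rw [hbot] at h2
    simpa using h2
  rw [key a, key b]

/-- There are an open, `2`-convex, simply connected set `Ω ⊆ ℝ⁵` and an affine plane `A` such that
`Ω ∩ A` is path connected and the map `H1 (Ω ∩ A) → H1 Ω` is not injective. -/
theorem result : ∃ Ω : Set (EuclideanSpace ℝ (Fin 5)), IsOpen Ω ∧ KConvex 2 Ω ∧
    IsSimplyConnected Ω ∧ ∃ A : AffineSubspace ℝ (EuclideanSpace ℝ (Fin 5)),
      Module.finrank ℝ A.direction = 2 ∧ IsPathConnected (Ω ∩ (A : Set _)) ∧
        NotInjH1 Ω (A : Set _) := by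
  obtain ⟨P, hP, hPr⟩ := TC.TPlane.main
  obtain ⟨hemb, hpl⟩ := TC.TPl.main
  have himg : TC.Om ∩ (P : Set TC.E) = TC.pl '' {0}ᶜ := by
    rw [hPr]
    ext p
    constructor
    · rintro ⟨h, z, rfl⟩
      exact ⟨z, by simpa using (hpl z).1 h, rfl⟩
    · rintro ⟨z, hz, rfl⟩
      exact ⟨(hpl z).2 (by simpa using hz), z, rfl⟩
  have hpc : IsPathConnected ({0}ᶜ : Set ℂ) :=
    isPathConnected_compl_singleton_of_one_lt_rank (by simp) 0
  have hOpen : TC.TOpen := TC.TOpen.main
  have hUnion : TC.TUnion := TC.TUnion.main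
  have hStar : TC.TStar := TC.TStar.main
  have hWall : TC.TWall := TC.TWall.main TC.TEdge.main
  have hTwo : TC.TTwo := TC.TTwo.main hWall TC.TDir.main TC.TExit.main
  have hAU : TC.TAU :=
    TC.TAU.main hUnion hStar hOpen (TC.TA1.main TC.TPt.main) TC.TA2.main TC.TA3.main
  have hM4 : TC.TM4 := TC.TM4.main TC.TM1.main TC.TM2.main
  have hSC : TC.TSC := TC.TSC.main hUnion hStar hOpen hAU TC.TN1.main TC.TN2.main TC.TM3.main hM4
    TC.TCov.main
  have hpc2 : IsPathConnected (TC.Om ∩ (P : Set TC.E)) := by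
    rw [himg]
    exact hpc.image hemb.continuous
  have hns : ¬ IsSimplyConnected (TC.Om ∩ (P : Set TC.E)) := by
    rw [himg, hemb.isSimplyConnected_image]
    exact TC.TPunct.main
  refine ⟨TC.Om, hOpen.1, hTwo, hSC, P, hP, hpc2, ?_⟩
  intro x hinj
  have hps : PathConnectedSpace ↥(TC.Om ∩ (P : Set TC.E)) :=
    isPathConnected_iff_pathConnectedSpace.1 hpc2
  have : SimplyConnectedSpace TC.Om := hSC
  -- the fundamental group of the section is cyclic
  have hhomeo : {z : ℂ // z ≠ 0} ≃ₜ ↥(TC.Om ∩ (P : Set TC.E)) :=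
    (hemb.homeomorphImage ({0}ᶜ : Set ℂ)).trans (Homeomorph.setCongr himg.symm)
  obtain ⟨Φ, hΦ⟩ := Pool.Agent.H823R3.exists_surjective hhomeo x
  have hG : ¬ Subsingleton (FundamentalGroup ↥(TC.Om ∩ (P : Set TC.E)) x) := by
    intro hs
    apply hns
    change SimplyConnectedSpace _
    rw [simply_connected_iff_loops_nullhomotopic]
    refine ⟨hps, fun y γ => ?_⟩
    have hy : Subsingleton (FundamentalGroup ↥(TC.Om ∩ (P : Set TC.E)) y) :=
      (FundamentalGroup.fundamentalGroupMulEquivOfPathConnected y x).toEquiv.subsingleton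
    have hy' : Subsingleton (Path.Homotopic.Quotient y y) := hy
    exact Quotient.exact (hy'.elim ⟦γ⟧ ⟦Path.refl y⟧)
  apply nontrivial_of_cyclic Φ hΦ hG
  have : Subsingleton (H1 TC.Om (Set.inclusion Set.inter_subset_left x)) :=
    Function.Surjective.subsingleton (f := Abelianization.of
      (G := FundamentalGroup TC.Om (Set.inclusion Set.inter_subset_left x)))
      (QuotientGroup.mk'_surjective _)
  exact hinj.subsingleton

end Pool.Agent.Q139.TC.LefAb
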