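import Pool.Agent.Q139.TC.Stmts

namespace Pool.Agent.Q139.TC.TM2

open Pool.Agent.Q139.TC

theorem main : Pool.Agent.Q139.TC.TM2 := by
  intro k i hki
  have key : ∀ x l : Fin 3 → ℝ, l 0 + l 1 + l 2 = 0 →
      ∃ p : E, (∀ i, xx i p = x i) ∧ ∀ i, ell i p = l i := by
    intro x l h
    refine ⟨!₂[x 0, x 1, x 2, l 0, l 1], ?_, ?_⟩
    · intro i
      fin_cases i <;> simp [xx]
    · intro i
      fin_cases i
      · simp [ell]
      · simp [ell]
      · simp [ell]
        linarith
  obtain ⟨p, hx, hl⟩ := key (fun j => if j = k ∨ j = i then -1 else 10)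
    (fun j => if j = k ∨ j = i then 2 else -4) (by
      fin_cases k <;> fin_cases i <;> simp at hki ⊢ <;> norm_num)
  have hxk : xx k p = -1 := by rw [hx]; simp
  have hxi : xx i p = -1 := by rw [hx]; simp
  have hlk : ell k p = 2 := by rw [hl]; simp
  have hne : ∀ j, xx j p ≠ 0 := by
    intro j
    rw [hx]
    by_cases h : j = k ∨ j = i
    · simp [h]
    · simp [h]
  refine ⟨p, ⟨⟨?_, ?_⟩, ⟨?_, ?_⟩⟩, ⟨?_, ?_⟩⟩
  · rw [hlk]; norm_num
  · intro j
    rw [hx, hl]
    by_cases h : j = k ∨ j = i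
    · right; simp only [h, if_true]; norm_num
    · left; simp only [h, if_false]; norm_num
  · rw [hxk]; norm_num
  · exact fun j => Or.inl (hne j)
  · rw [hxi]; norm_num
  · exact fun j => Or.inl (hne j)

end Pool.Agent.Q139.TC.TM2
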