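import Pool.Agent.Q139.TC.Stmts

namespace Pool.Agent.Q139.TC.TPt

theorem main : Pool.Agent.Q139.TC.TPt := by
  intro x l h
  refine ⟨!₂[x 0, x 1, x 2, l 0, l 1], ?_, ?_⟩
  · intro i
    fin_cases i
    · simp [xx]
    · simp [xx]
    · simp [xx]
  · intro i
    fin_cases i
    · simp [ell]
    · simp [ell]
    · simp [ell]
      linarith

end Pool.Agent.Q139.TC.TPt
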