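import Pool.Agent.Q139.TC.Stmts

namespace Pool.Agent.Q139.TC.TSum

open Pool.Agent.Q139.TC

theorem main : Pool.Agent.Q139.TC.TSum := by
  intro p
  simp only [ell, ContinuousLinearMap.neg_apply, ContinuousLinearMap.add_apply]
  ring

end Pool.Agent.Q139.TC.TSum
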